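import Pool.Agent.H41.NUM.E8cut

/-!
KAC ADE numbers, class zero of `E_8`: the values at `1, …, 5` from the values of the smaller types.
-/

set_option autoImplicit false

namespace Pool.H88.Num

open scoped BigOperators
open Pool.Agent.H27.KAC
open Pool.H88.KA (Typ Std cox MMok mm_eq TT typ_exists)

section

variable {I : Type} [DecidableEq I]

/-- the type of a set of vertices. -/
theorem typ_img {a : I → I → ℕ} {A : Finset I} {n c m c' : ℕ} {φ : Fin n → I}
    (h : Typ a A n c φ) (S : Finset (Fin n)) (e : Fin m → Fin n) (he : ∀ i j, e i = e j → i = j)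
    (hadj : ∀ i j, TT n c (e i) (e j) = TT m c' i j) (hS : ∀ j, j ∈ S ↔ ∃ i, e i = j) :
    Typ a (S.image φ) m c' (fun i => φ (e i)) := by
  refine ⟨fun i j hij => he i j (h.inj hij), fun i => ?_, fun x hx => ?_, fun i j => ?_⟩
  · rw [image_mem h.inj]
    exact (hS _).2 ⟨i, rfl⟩
  · obtain ⟨j, hj, rfl⟩ := Finset.mem_image.1 hx
    obtain ⟨i, hi⟩ := (hS j).1 hj
    exact ⟨i, by rw [hi]⟩
  · rw [h.adj]
    exact hadj i j

/-- the type of the complement of a set of vertices. -/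
theorem typ_compl {a : I → I → ℕ} {A : Finset I} {n c m c' : ℕ} {φ : Fin n → I}
    (h : Typ a A n c φ) (S : Finset (Fin n)) (e : Fin m → Fin n) (he : ∀ i j, e i = e j → i = j)
    (hadj : ∀ i j, TT n c (e i) (e j) = TT m c' i j) (hS : ∀ j, j ∉ S ↔ ∃ i, e i = j) :
    Typ a (A \ S.image φ) m c' (fun i => φ (e i)) := by
  have h1 : A \ S.image φ = (Finset.univ \ S).image φ := by
    ext x
    rw [Finset.mem_sdiff]
    constructor
    · rintro ⟨hx, hxS⟩
      obtain ⟨j, rfl⟩ := h.surj x hx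
      rw [image_mem h.inj] at hxS
      exact Finset.mem_image_of_mem φ (Finset.mem_sdiff.2 ⟨Finset.mem_univ _, hxS⟩)
    · intro hx
      obtain ⟨j, hj, rfl⟩ := Finset.mem_image.1 hx
      rw [image_mem h.inj]
      exact ⟨h.mem j, (Finset.mem_sdiff.1 hj).2⟩
  rw [h1]
  refine typ_img h _ e he hadj fun j => ?_
  rw [Finset.mem_sdiff, ← hS j]
  simp

end

section

variable {I : Type} [Fintype I] [DecidableEq I]

/-- the values of the smaller types which are needed. -/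
structure SmallVals (a : I → I → ℕ) (cd : CrossData a) : Prop where
  an : ∀ (N : Finset I) (n : ℕ) (φ : Fin n → I), FinT a N → 1 ≤ n → Typ a N n (n - 2) φ →
    ∀ g : ℕ, cn a cd N (fun _ => 0) g = (Nat.choose (g + n) n : ℚ)
  dan : ∀ (N : Finset I) (n : ℕ) (φ : Fin n → I), FinT a N → 1 ≤ n → Typ a N n (n - 2) φ →
    dt a N = n + 1
  d5 : ∀ (N : Finset I) (φ : Fin 5 → I), FinT a N → Typ a N 5 2 φ →
    cn a cd N (fun _ => 0) 1 = 4 ∧ cn a cd N (fun _ => 0) 2 = 12 ∧ cn a cd N (fun _ => 0) 3 = 28 ∧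
      cn a cd N (fun _ => 0) 4 = 58 ∧ cn a cd N (fun _ => 0) 5 = 108
  dd5 : ∀ (N : Finset I) (φ : Fin 5 → I), FinT a N → Typ a N 5 2 φ → dt a N = 4
  e6 : ∀ (N : Finset I) (φ : Fin 6 → I), FinT a N → Typ a N 6 2 φ →
    cn a cd N (fun _ => 0) 1 = 3 ∧ cn a cd N (fun _ => 0) 2 = 9 ∧ cn a cd N (fun _ => 0) 3 = 20 ∧
      cn a cd N (fun _ => 0) 4 = 42 ∧ cn a cd N (fun _ => 0) 5 = 78
  de6 : ∀ (N : Finset I) (φ : Fin 6 → I), FinT a N → Typ a N 6 2 φ → dt a N = 3
  e7 : ∀ (N : Finset I) (φ : Fin 7 → I), FinT a N → Typ a N 7 2 φ →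
    cn a cd N (fun _ => 0) 1 = 2 ∧ cn a cd N (fun _ => 0) 2 = 6 ∧ cn a cd N (fun _ => 0) 3 = 12 ∧
      cn a cd N (fun _ => 0) 4 = 25 ∧ cn a cd N (fun _ => 0) 5 = 44
  de7 : ∀ (N : Finset I) (φ : Fin 7 → I), FinT a N → Typ a N 7 2 φ → dt a N = 2

/-- the normalised numbers of a typed set. -/
theorem PhN_of_cn {a : I → I → ℕ} (hs : ∀ i j, a i j = a j i) (cd : CrossData a) {N : Finset I}
    (hN : FinT a N) {g : ℕ} (hg : 1 ≤ g) {c d : ℚ} (hc : cn a cd N (fun _ => 0) g = c)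
    (hd : dt a N = d) : PhN a cd N g = c / d := by
  have h1 := cn_eq_PhN hs cd hN g hg
  have h2 := dt_ne_zero hN
  rw [← hc, ← hd, h1]
  field_simp

/-- the weights of the chains. -/
theorem wN_chain {a : I → I → ℕ} {cd : CrossData a} (hmm : MMok a cd)
    (hv : SmallVals a cd) (heps : ∀ A q, (∀ x ∈ A, IsZ (q x)) → cd.eps A q = 1)
    {N : Finset I} {n : ℕ} {φ : Fin n → I} (hN : FinT a N) (hcN : ConnS a N) (hn : 1 ≤ n)
    (hT : Typ a N n (n - 2) φ) {g : ℕ} (hg : 1 ≤ g) :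
    wN a cd N g = (-1) ^ n * (Nat.choose (g - 1) n : ℚ) / (n + 1) := by
  have hS : Std n (n - 2) := by
    unfold Std
    omega
  have hm : cd.mm N = n + 1 := by
    rw [mm_eq hmm hN hcN hT hS]
    unfold cox
    split_ifs <;> omega
  unfold wN upw
  rw [hm, hT.card, hv.dan N n φ hN hn hT, heps N _ (fun _ _ => ⟨0, by simp⟩)]
  split_ifs with h
  · rw [hv.an N n φ hN hn hT, one_mul]
    have e : g - (n + 1) + n = g - 1 := by omega
    rw [e]
  · rw [Nat.choose_eq_zero_of_lt (by omega)]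
    simp

theorem E8_vals {a : I → I → ℕ} (hs : ∀ i j, a i j = a j i) {cd : CrossData a} (hmm : MMok a cd)
    (hv : SmallVals a cd) (heps : ∀ A q, (∀ x ∈ A, IsZ (q x)) → cd.eps A q = 1)
    {A : Finset I} (hA : FinT a A) {φ : Fin 8 → I} (h : Typ a A 8 2 φ) (hd8 : dt a A = 1) :
    cn a cd A (fun _ => 0) 1 = 1 ∧ cn a cd A (fun _ => 0) 2 = 3 ∧ cn a cd A (fun _ => 0) 3 = 5 ∧
      cn a cd A (fun _ => 0) 4 = 10 ∧ cn a cd A (fun _ => 0) 5 = 15 := by
  have hinj := h.inj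
  have L1 : ({6} : Finset (Fin 8)).image φ = {φ 6} := by simp
  have L2 : ({5, 6} : Finset (Fin 8)).image φ = {φ 5, φ 6} := by simp [Finset.image_insert]
  have L3 : ({4, 5, 6} : Finset (Fin 8)).image φ = {φ 4, φ 5, φ 6} := by simp [Finset.image_insert]
  have L4 : ({3, 4, 5, 6} : Finset (Fin 8)).image φ = {φ 3, φ 4, φ 5, φ 6} := by
    simp [Finset.image_insert]
  have L5 : ({2, 3, 4, 5, 6} : Finset (Fin 8)).image φ = {φ 2, φ 3, φ 4, φ 5, φ 6} := by
    simp [Finset.image_insert]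
  have hsub : ∀ S : Finset (Fin 8), S.image φ ⊆ A := by
    intro S x hx
    obtain ⟨i, _, rfl⟩ := Finset.mem_image.1 hx
    exact h.mem i
  -- the types of the complements
  have T7 : Typ a (A.erase (φ 6)) 7 2 (fun i => φ (![0, 1, 2, 3, 4, 5, 7] i)) := by
    have := typ_compl (c' := 2) h {6} ![0, 1, 2, 3, 4, 5, 7] (by decide) (by decide) (by decide)
    rw [L1, Finset.sdiff_singleton_eq_erase] at this
    exact this
  have T6 : Typ a (A \ {φ 5, φ 6}) 6 2 (fun i => φ (![0, 1, 2, 3, 4, 7] i)) := by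
    have := typ_compl (c' := 2) h {5, 6} ![0, 1, 2, 3, 4, 7] (by decide) (by decide) (by decide)
    rw [L2] at this
    exact this
  have T5 : Typ a (A \ {φ 4, φ 5, φ 6}) 5 2 (fun i => φ (![0, 1, 2, 3, 7] i)) := by
    have := typ_compl (c' := 2) h {4, 5, 6} ![0, 1, 2, 3, 7] (by decide) (by decide) (by decide)
    rw [L3] at this
    exact this
  have T4 : Typ a (A \ {φ 3, φ 4, φ 5, φ 6}) 4 2 (fun i => φ (![0, 1, 2, 7] i)) := by
    have := typ_compl (c' := 2) h {3, 4, 5, 6} ![0, 1, 2, 7] (by decide) (by decide) (by decide)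
    rw [L4] at this
    exact this
  have U2 : Typ a (({0, 1} : Finset (Fin 8)).image φ) 2 0 (fun i => φ (![0, 1] i)) :=
    typ_img (c' := 0) h {0, 1} ![0, 1] (by decide) (by decide) (by decide)
  have U1 : Typ a (({7} : Finset (Fin 8)).image φ) 1 0 (fun i => φ (![7] i)) :=
    typ_img (c' := 0) h {7} ![7] (by decide) (by decide) (by decide)
  have W1 : Typ a {φ 6} 1 0 (fun i => φ (![6] i)) := by
    have := typ_img (c' := 0) h {6} ![6] (by decide) (by decide) (by decide)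
    rw [L1] at this
    exact this
  have W2 : Typ a {φ 5, φ 6} 2 0 (fun i => φ (![5, 6] i)) := by
    have := typ_img (c' := 0) h {5, 6} ![5, 6] (by decide) (by decide) (by decide)
    rw [L2] at this
    exact this
  have W3 : Typ a {φ 4, φ 5, φ 6} 3 1 (fun i => φ (![4, 5, 6] i)) := by
    have := typ_img (c' := 1) h {4, 5, 6} ![4, 5, 6] (by decide) (by decide) (by decide)
    rw [L3] at this
    exact this
  have W4 : Typ a {φ 3, φ 4, φ 5, φ 6} 4 2 (fun i => φ (![3, 4, 5, 6] i)) := by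
    have := typ_img (c' := 2) h {3, 4, 5, 6} ![3, 4, 5, 6] (by decide) (by decide) (by decide)
    rw [L4] at this
    exact this
  -- the last complement
  have hlast : ∀ g, PhN a cd (A \ {φ 2, φ 3, φ 4, φ 5, φ 6}) g =
      PhN a cd (({0, 1} : Finset (Fin 8)).image φ) g * PhN a cd (({7} : Finset (Fin 8)).image φ) g := by
    intro g
    rw [← PhN_union hs cd]
    · congr 1
      rw [← L5]
      ext x
      rw [Finset.mem_sdiff, Finset.mem_union]
      constructor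
      · rintro ⟨hx, hx'⟩
        obtain ⟨j, rfl⟩ := h.surj x hx
        rw [image_mem hinj] at hx'
        rw [image_mem hinj, image_mem hinj]
        clear hx
        revert hx'
        revert j
        decide
      · intro hx
        have hx1 : x ∈ A := by
          rcases hx with hx | hx
          · exact hsub _ hx
          · exact hsub _ hx
        refine ⟨hx1, ?_⟩
        obtain ⟨j, rfl⟩ := h.surj x hx1
        rw [image_mem hinj, image_mem hinj] at hx
        rw [image_mem hinj]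
        clear hx1
        revert hx
        revert j
        decide
    · rw [Finset.disjoint_left]
      intro x hx hx'
      obtain ⟨j, rfl⟩ := h.surj x (hsub _ hx)
      rw [image_mem hinj] at hx hx'
      revert hx hx'
      revert j
      decide
    · intro x hx z hz
      obtain ⟨i, rfl⟩ := h.surj x (hsub _ hx)
      obtain ⟨j, rfl⟩ := h.surj z (hsub _ hz)
      rw [image_mem hinj] at hx hz
      rw [h.adj]
      revert hx hz
      revert i j
      decide
  have C1 : ConnS a {φ 6} := conn_singleton a (φ 6)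
  have C2 : ConnS a {φ 5, φ 6} := conn_insert hs C1 (y := φ 6) (by simp) (by rw [h.adj]; decide)
  have C3 : ConnS a {φ 4, φ 5, φ 6} :=
    conn_insert hs C2 (y := φ 5) (by simp) (by rw [h.adj]; decide)
  have C4 : ConnS a {φ 3, φ 4, φ 5, φ 6} :=
    conn_insert hs C3 (y := φ 4) (by simp) (by rw [h.adj]; decide)
  have F1 : FinT a {φ 6} := hA.mono (by rw [← L1]; exact hsub _)
  have F2 : FinT a {φ 5, φ 6} := hA.mono (by rw [← L2]; exact hsub _)
  have F3 : FinT a {φ 4, φ 5, φ 6} := hA.mono (by rw [← L3]; exact hsub _)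
  have F4 : FinT a {φ 3, φ 4, φ 5, φ 6} := hA.mono (by rw [← L4]; exact hsub _)
  have G7 : FinT a (A.erase (φ 6)) := hA.mono (Finset.erase_subset _ _)
  have G6 : FinT a (A \ {φ 5, φ 6}) := hA.mono Finset.sdiff_subset
  have G5 : FinT a (A \ {φ 4, φ 5, φ 6}) := hA.mono Finset.sdiff_subset
  have G4 : FinT a (A \ {φ 3, φ 4, φ 5, φ 6}) := hA.mono Finset.sdiff_subset
  have G2 : FinT a (({0, 1} : Finset (Fin 8)).image φ) := hA.mono (hsub _)
  have G1 : FinT a (({7} : Finset (Fin 8)).image φ) := hA.mono (hsub _)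
  obtain ⟨a1, a2, a3, a4, a5⟩ := hv.e7 _ _ G7 T7
  obtain ⟨b1, b2, b3, b4, b5⟩ := hv.e6 _ _ G6 T6
  obtain ⟨c1, c2, c3, c4, c5⟩ := hv.d5 _ _ G5 T5
  have d7 := hv.de7 _ _ G7 T7
  have d6 := hv.de6 _ _ G6 T6
  have d5 := hv.dd5 _ _ G5 T5
  have main : ∀ g, 1 ≤ g → g ≤ 5 → cn a cd A (fun _ => 0) g =
      (g : ℚ) * (cn a cd (A.erase (φ 6)) (fun _ => 0) g / 2) +
      (g : ℚ) * ((-1) ^ 1 * (Nat.choose (g - 1) 1 : ℚ) / ((1 : ℕ) + 1)) *
        (cn a cd (A \ {φ 5, φ 6}) (fun _ => 0) g / 3) +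
      (g : ℚ) * ((-1) ^ 2 * (Nat.choose (g - 1) 2 : ℚ) / ((2 : ℕ) + 1)) *
        (cn a cd (A \ {φ 4, φ 5, φ 6}) (fun _ => 0) g / 4) +
      (g : ℚ) * ((-1) ^ 3 * (Nat.choose (g - 1) 3 : ℚ) / ((3 : ℕ) + 1)) *
        ((Nat.choose (g + 4) 4 : ℚ) / ((4 : ℕ) + 1)) +
      (g : ℚ) * ((-1) ^ 4 * (Nat.choose (g - 1) 4 : ℚ) / ((4 : ℕ) + 1)) *
        (((Nat.choose (g + 2) 2 : ℚ) / ((2 : ℕ) + 1)) *
          ((Nat.choose (g + 1) 1 : ℚ) / ((1 : ℕ) + 1))) := by
    intro g hg1 hg5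
    rw [cn_eq_PhN hs cd hA g hg1, hd8, one_mul, E8_cut hs hmm hA h hg5, hlast]
    rw [wN_chain hmm hv heps F1 C1 (by norm_num) W1 hg1,
      wN_chain hmm hv heps F2 C2 (by norm_num) W2 hg1,
      wN_chain hmm hv heps F3 C3 (by norm_num) W3 hg1,
      wN_chain hmm hv heps F4 C4 (by norm_num) W4 hg1]
    rw [PhN_of_cn hs cd G7 hg1 rfl d7, PhN_of_cn hs cd G6 hg1 rfl d6, PhN_of_cn hs cd G5 hg1 rfl d5,
      PhN_of_cn hs cd G4 hg1 (hv.an _ _ _ G4 (by norm_num) T4 g)
        (hv.dan _ _ _ G4 (by norm_num) T4),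
      PhN_of_cn hs cd G2 hg1 (hv.an _ _ _ G2 (by norm_num) U2 g)
        (hv.dan _ _ _ G2 (by norm_num) U2),
      PhN_of_cn hs cd G1 hg1 (hv.an _ _ _ G1 (by norm_num) U1 g)
        (hv.dan _ _ _ G1 (by norm_num) U1)]
  refine ⟨?_, ?_, ?_, ?_, ?_⟩
  · rw [main 1 (by norm_num) (by norm_num), a1, b1, c1]
    norm_num [Nat.choose]
  · rw [main 2 (by norm_num) (by norm_num), a2, b2, c2]
    norm_num [Nat.choose]
  · rw [main 3 (by norm_num) (by norm_num), a3, b3, c3]
    norm_num [Nat.choose]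
  · rw [main 4 (by norm_num) (by norm_num), a4, b4, c4]
    norm_num [Nat.choose]
  · rw [main 5 (by norm_num) (by norm_num), a5, b5, c5]
    norm_num [Nat.choose]

end

end Pool.H88.Num
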