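import Pool.Agent.H88.KA.CN2c
import Pool.Agent.H88.KA.CL5

/-!
KAC ADE numbers, class zero of `E_8`: cutting along the long arm.
-/

set_option autoImplicit false

namespace Pool.H88.Num

open scoped BigOperators
open Pool.Agent.H27.KAC
open Pool.H88.KA (Typ Std cox MMok mm_eq TT typ_exists)

section

variable {I : Type} [Fintype I] [DecidableEq I]

/-- splitting the sum by the first vertex of a chain which lies in `M`. -/
theorem PhN_split (a : I → I → ℕ) (cd : CrossData a) (A : Finset I) (y : ℕ → I) (g k : ℕ) :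
    PhN a cd A g =
      ∑ i ∈ Finset.range k, ∑ M ∈ A.powerset.filter
          (fun M => y i ∈ M ∧ Disjoint ((Finset.range i).image y) M), tmN a cd A g M +
        ∑ M ∈ A.powerset.filter (fun M => Disjoint ((Finset.range k).image y) M),
          tmN a cd A g M := by
  induction k with
  | zero =>
    unfold PhN
    simp
  | succ k ih =>
    rw [Finset.sum_range_succ, ih, add_assoc]
    congr 1
    rw [← Finset.sum_union]
    · refine Finset.sum_congr ?_ fun _ _ => rfl
      ext M
      simp only [Finset.mem_union, Finset.mem_filter]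
      rw [Finset.range_add_one, Finset.image_insert, Finset.disjoint_insert_left]
      by_cases h : y k ∈ M
      · tauto
      · tauto
    · rw [Finset.disjoint_filter]
      intro M _ h1 h2
      rw [Finset.range_add_one, Finset.image_insert, Finset.disjoint_insert_left] at h2
      exact h2.1 h1.1

/-- a connected subset lies in one component. -/
theorem conn_sub_comp {a : I → I → ℕ} (hs : ∀ i j, a i j = a j i) {N K : Finset I}
    (hK : ConnS a K) (hKN : K ⊆ N) : ∃ B ∈ comps a N, K ⊆ B := by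
  obtain ⟨x, hx⟩ := hK.1
  obtain ⟨B, hB, hxB⟩ := comps_cover hs x (hKN hx)
  refine ⟨B, hB, ?_⟩
  by_contra hcon
  have h1 : K ∩ B ≠ K := by
    intro h
    apply hcon
    rw [← h]
    exact Finset.inter_subset_right
  obtain ⟨i, hi, j, hj, hj', hij⟩ := hK.2 (K ∩ B) Finset.inter_subset_left
    ⟨x, Finset.mem_inter.2 ⟨hx, hxB⟩⟩ h1
  rw [Finset.mem_inter] at hi hj'
  have h2 : j ∉ B := fun h => hj' ⟨hj, h⟩
  have h3 := comps_sep hB i hi.2 j (hKN hj) h2
  omega

/-- the Coxeter number exceeds the rank. -/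
theorem cox_ge {n c : ℕ} (h : Std n c) : n + 1 ≤ cox n c := by
  unfold cox
  unfold Std at h
  split_ifs <;> omega

theorem mm_ge_card {a : I → I → ℕ} (hs : ∀ i j, a i j = a j i) {cd : CrossData a}
    (hmm : MMok a cd) {N : Finset I} (hN : FinT a N) (hc : ConnS a N) :
    N.card + 1 ≤ cd.mm N := by
  obtain ⟨n, c, φ, hφ, hS⟩ := typ_exists hs hN hc
  rw [mm_eq hmm hN hc hφ hS, hφ.card]
  exact cox_ge hS

theorem wN_zero {a : I → I → ℕ} {cd : CrossData a} {N : Finset I} {g : ℕ} (hg : g < cd.mm N) :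
    wN a cd N g = 0 := by
  unfold wN upw
  rw [if_neg (by omega)]
  simp

/-- terms with a large connected set outside `M` vanish. -/
theorem tmN_zero {a : I → I → ℕ} (hs : ∀ i j, a i j = a j i) {cd : CrossData a}
    (hmm : MMok a cd) {A K M : Finset I} (hA : FinT a A) (hK : ConnS a K) (hKA : K ⊆ A)
    (hKM : Disjoint K M) {g : ℕ} (hg : g ≤ K.card) : tmN a cd A g M = 0 := by
  have hsub : K ⊆ A \ M := by
    intro x hx
    exact Finset.mem_sdiff.2 ⟨hKA hx, fun h => Finset.disjoint_left.1 hKM hx h⟩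
  obtain ⟨B, hB, hKB⟩ := conn_sub_comp hs hK hsub
  have h1 := mm_ge_card hs hmm (hA.mono ((comps_subset hB).trans Finset.sdiff_subset))
    (comps_conn hB)
  have h2 := Finset.card_le_card hKB
  unfold tmN
  rw [Finset.prod_eq_zero hB (wN_zero (by omega)), mul_zero]

end

section

variable {I : Type} [DecidableEq I]

/-- adding a neighbour keeps a set connected. -/
theorem conn_insert {a : I → I → ℕ} (hs : ∀ i j, a i j = a j i) {K : Finset I} (hK : ConnS a K)
    {x y : I} (hy : y ∈ K) (hxy : 0 < a x y) : ConnS a (insert x K) := by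
  refine ⟨Finset.insert_nonempty x K, ?_⟩
  intro T hT hTne hTS
  by_cases h1 : (T ∩ K).Nonempty
  · by_cases h2 : T ∩ K = K
    · have hxT : x ∉ T := by
        intro hx
        apply hTS
        apply Finset.Subset.antisymm hT
        intro z hz
        rcases Finset.mem_insert.1 hz with rfl | hz
        · exact hx
        · rw [← h2] at hz
          exact (Finset.mem_inter.1 hz).1
      refine ⟨y, ?_, x, Finset.mem_insert_self x K, hxT, ?_⟩
      · have hy' := hy
        rw [← h2] at hy'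
        exact (Finset.mem_inter.1 hy').1
      · rw [hs]
        exact hxy
    · obtain ⟨i, hi, j, hj, hj', hij⟩ := hK.2 (T ∩ K) Finset.inter_subset_right h1 h2
      exact ⟨i, (Finset.mem_inter.1 hi).1, j, Finset.mem_insert_of_mem hj,
        fun h => hj' (Finset.mem_inter.2 ⟨h, hj⟩), hij⟩
  · have hz : ∀ z ∈ T, z = x := by
      intro z hz
      rcases Finset.mem_insert.1 (hT hz) with h | h
      · exact h
      · exact absurd ⟨z, Finset.mem_inter.2 ⟨hz, h⟩⟩ h1
    obtain ⟨z, hzT⟩ := hTne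
    have hzx := hz z hzT
    subst hzx
    refine ⟨z, hzT, y, Finset.mem_insert_of_mem hy, ?_, hxy⟩
    intro hyT
    exact h1 ⟨y, Finset.mem_inter.2 ⟨hyT, hy⟩⟩

theorem conn_singleton (a : I → I → ℕ) (x : I) : ConnS a {x} := by
  refine ⟨Finset.singleton_nonempty x, ?_⟩
  intro T hT hTne hTS
  exfalso
  apply hTS
  rcases Finset.subset_singleton_iff.1 hT with h | h
  · rw [h] at hTne
    exact absurd hTne Finset.not_nonempty_empty
  · exact h

/-- images of disjoint subsets. -/
theorem image_mem {n : ℕ} {φ : Fin n → I} (hφ : Function.Injective φ) (S : Finset (Fin n)) (i : Fin n) :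
    φ i ∈ S.image φ ↔ i ∈ S := by
  rw [Finset.mem_image]
  constructor
  · rintro ⟨j, hj, hji⟩
    rw [← hφ hji]
    exact hj
  · intro hi
    exact ⟨i, hi, rfl⟩

end

section

variable {I : Type} [Fintype I] [DecidableEq I]

/-- the cut of `E_8` along its long arm, valid for `g ≤ 5`. -/
theorem E8_cut {a : I → I → ℕ} (hs : ∀ i j, a i j = a j i) {cd : CrossData a} (hmm : MMok a cd)
    {A : Finset I} (hA : FinT a A) {φ : Fin 8 → I} (h : Typ a A 8 2 φ) {g : ℕ} (hg : g ≤ 5) :
    PhN a cd A g = (g : ℚ) * PhN a cd (A.erase (φ 6)) g +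
      (g : ℚ) * wN a cd {φ 6} g * PhN a cd (A \ {φ 5, φ 6}) g +
      (g : ℚ) * wN a cd {φ 5, φ 6} g * PhN a cd (A \ {φ 4, φ 5, φ 6}) g +
      (g : ℚ) * wN a cd {φ 4, φ 5, φ 6} g * PhN a cd (A \ {φ 3, φ 4, φ 5, φ 6}) g +
      (g : ℚ) * wN a cd {φ 3, φ 4, φ 5, φ 6} g * PhN a cd (A \ {φ 2, φ 3, φ 4, φ 5, φ 6}) g := by
  have hinj := h.inj
  have key : ∀ (S : Finset (Fin 8)) (y : Fin 8), y ∉ S → ConnS a (S.image φ) →
      (∀ i ∈ S, ∀ j : Fin 8, j ∉ S → j ≠ y → TT 8 2 i j = 0) →
      ∑ M ∈ A.powerset.filter (fun M => φ y ∈ M ∧ Disjoint (S.image φ) M), tmN a cd A g M =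
        (g : ℚ) * wN a cd (S.image φ) g * PhN a cd (A \ insert (φ y) (S.image φ)) g := by
    intro S y hy hc hadj
    apply PhN_cut hs cd (φ y)
    · intro x hx
      obtain ⟨i, _, rfl⟩ := Finset.mem_image.1 hx
      exact h.mem i
    · exact h.mem y
    · rw [image_mem hinj]
      exact hy
    · intro x hx z hz hzK hzy
      obtain ⟨i, hi, rfl⟩ := Finset.mem_image.1 hx
      obtain ⟨j, rfl⟩ := h.surj z hz
      rw [image_mem hinj] at hzK
      rw [h.adj]
      exact hadj i hi j hzK (fun hc' => hzy (by rw [hc']))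
    · exact hc
  obtain ⟨y, hy⟩ : ∃ y : ℕ → I, y = fun i => φ ⟨6 - i, by omega⟩ := ⟨_, rfl⟩
  have y0 : y 0 = φ 6 := by rw [hy]; rfl
  have y1 : y 1 = φ 5 := by rw [hy]; rfl
  have y2 : y 2 = φ 4 := by rw [hy]; rfl
  have y3 : y 3 = φ 3 := by rw [hy]; rfl
  have y4 : y 4 = φ 2 := by rw [hy]; rfl
  have K0 : (Finset.range 0).image y = ∅ := by simp
  have K1 : (Finset.range 1).image y = {φ 6} := by
    rw [Finset.range_one, Finset.image_singleton, y0]
  have K2 : (Finset.range 2).image y = {φ 5, φ 6} := by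
    rw [Finset.range_add_one, Finset.image_insert, K1, y1]
  have K3 : (Finset.range 3).image y = {φ 4, φ 5, φ 6} := by
    rw [Finset.range_add_one, Finset.image_insert, K2, y2]
  have K4 : (Finset.range 4).image y = {φ 3, φ 4, φ 5, φ 6} := by
    rw [Finset.range_add_one, Finset.image_insert, K3, y3]
  have K5 : (Finset.range 5).image y = {φ 2, φ 3, φ 4, φ 5, φ 6} := by
    rw [Finset.range_add_one, Finset.image_insert, K4, y4]
  have L1 : ({6} : Finset (Fin 8)).image φ = {φ 6} := by simp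
  have L2 : ({5, 6} : Finset (Fin 8)).image φ = {φ 5, φ 6} := by simp [Finset.image_insert]
  have L3 : ({4, 5, 6} : Finset (Fin 8)).image φ = {φ 4, φ 5, φ 6} := by simp [Finset.image_insert]
  have L4 : ({3, 4, 5, 6} : Finset (Fin 8)).image φ = {φ 3, φ 4, φ 5, φ 6} := by
    simp [Finset.image_insert]
  have L5 : ({2, 3, 4, 5, 6} : Finset (Fin 8)).image φ = {φ 2, φ 3, φ 4, φ 5, φ 6} := by
    simp [Finset.image_insert]
  have C1 : ConnS a (({6} : Finset (Fin 8)).image φ) := by
    rw [L1]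
    exact conn_singleton a (φ 6)
  have C2 : ConnS a (({5, 6} : Finset (Fin 8)).image φ) := by
    rw [L2, ← L1]
    exact conn_insert hs C1 (y := φ 6) (by simp) (by rw [h.adj]; decide)
  have C3 : ConnS a (({4, 5, 6} : Finset (Fin 8)).image φ) := by
    rw [L3, ← L2]
    exact conn_insert hs C2 (y := φ 5) (by rw [L2]; simp) (by rw [h.adj]; decide)
  have C4 : ConnS a (({3, 4, 5, 6} : Finset (Fin 8)).image φ) := by
    rw [L4, ← L3]
    exact conn_insert hs C3 (y := φ 4) (by rw [L3]; simp) (by rw [h.adj]; decide)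
  have C5 : ConnS a (({2, 3, 4, 5, 6} : Finset (Fin 8)).image φ) := by
    rw [L5, ← L4]
    exact conn_insert hs C4 (y := φ 3) (by rw [L4]; simp) (by rw [h.adj]; decide)
  rw [PhN_split a cd A y g 5]
  have hlast : ∑ M ∈ A.powerset.filter (fun M => Disjoint ((Finset.range 5).image y) M),
      tmN a cd A g M = 0 := by
    apply Finset.sum_eq_zero
    intro M hM
    rw [Finset.mem_filter, K5, ← L5] at hM
    refine tmN_zero hs hmm hA (K := ({2, 3, 4, 5, 6} : Finset (Fin 8)).image φ) ?_ ?_ hM.2 ?_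
    · exact C5
    · intro x hx
      obtain ⟨i, _, rfl⟩ := Finset.mem_image.1 hx
      exact h.mem i
    · rw [Finset.card_image_of_injective _ hinj]
      exact hg
  rw [hlast, add_zero]
  rw [Finset.sum_range_succ, Finset.sum_range_succ, Finset.sum_range_succ, Finset.sum_range_succ,
    Finset.sum_range_succ, Finset.sum_range_zero, zero_add]
  rw [K0, K1, K2, K3, K4, y0, y1, y2, y3, y4]
  have t0 : ∑ M ∈ A.powerset.filter (fun M => φ 6 ∈ M ∧ Disjoint (∅ : Finset I) M),
      tmN a cd A g M = (g : ℚ) * PhN a cd (A.erase (φ 6)) g := by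
    rw [← PhN_cut0 cd (φ 6) (h.mem 6) g]
    refine Finset.sum_congr ?_ fun _ _ => rfl
    ext M
    simp
  have t1 := key {6} 5 (by decide) C1 (by decide)
  have t2 := key {5, 6} 4 (by decide) C2 (by decide)
  have t3 := key {4, 5, 6} 3 (by decide) C3 (by decide)
  have t4 := key {3, 4, 5, 6} 2 (by decide) C4 (by decide)
  rw [L1] at t1
  rw [L2] at t2
  rw [L3] at t3
  rw [L4] at t4
  rw [t0, t1, t2, t3, t4]

end

end Pool.H88.Num
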